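import Mathlib

/-!
# Character sums over the Singer difference set

`G = 𝔽_{p³}ˣ / 𝔽_pˣ` has order `p² + p + 1`, and all nontrivial character sums over the image `D` of
the elements of trace zero have absolute value `√p`.
-/

set_option autoImplicit false

open Finset

namespace Pool.Agent.H109R2.SIC

section Singer

variable (p : ℕ) [Fact p.Prime]

/-- the field with `p ^ 3` elements -/
abbrev L3 := GaloisField p 3

noncomputable instance instFtL3 : Fintype (L3 p) := Fintype.ofFinite _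

noncomputable instance instDecL3 : DecidableEq (L3 p) := Classical.decEq _

/-- the nonzero scalars -/
noncomputable def H3 : Subgroup (L3 p)ˣ :=
  (Units.map (algebraMap (ZMod p) (L3 p)).toMonoidHom).range

/-- the group of the Singer difference set -/
abbrev G3 := (L3 p)ˣ ⧸ H3 p

noncomputable instance instFtG3 : Fintype (G3 p) := Fintype.ofFinite _

noncomputable instance instDecG3' : DecidableEq (G3 p) := Classical.decEq _

/-- the group, written additively -/
def A3 := Additive (G3 p)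

noncomputable instance instAddA3 : AddCommGroup (A3 p) :=
  inferInstanceAs (AddCommGroup (Additive (G3 p)))

noncomputable instance instFtA3 : Fintype (A3 p) := inferInstanceAs (Fintype (Additive (G3 p)))

noncomputable instance instDecA3 : DecidableEq (A3 p) := Classical.decEq _

/-- the identification -/
noncomputable def ofG : G3 p ≃ A3 p := Additive.ofMul

lemma ofG_mul (x y : G3 p) : ofG p (x * y) = ofG p x + ofG p y := rfl

lemma ofG_one : ofG p 1 = 0 := rfl

/-- the trace -/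
noncomputable def tr3 (x : L3 p) : ZMod p := Algebra.trace (ZMod p) (L3 p) x

lemma tr3_mul (c : ZMod p) (x : L3 p) : tr3 p (algebraMap (ZMod p) (L3 p) c * x) = c * tr3 p x := by
  unfold tr3
  rw [← Algebra.smul_def, map_smul, smul_eq_mul]

lemma card_L3 : Fintype.card (L3 p) = p ^ 3 := by
  rw [← Nat.card_eq_fintype_card, GaloisField.card p 3 (by norm_num)]

lemma card_H3 : Nat.card (H3 p) = p - 1 := by
  have hinj : Function.Injective (Units.map (algebraMap (ZMod p) (L3 p)).toMonoidHom) := by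
    apply Units.map_injective
    exact (algebraMap (ZMod p) (L3 p)).injective
  have := Nat.card_congr (MonoidHom.ofInjective hinj).toEquiv
  unfold H3
  rw [← this, Nat.card_eq_fintype_card, ZMod.card_units]

lemma p_pos : 1 < p := (Fact.out : p.Prime).one_lt

lemma card_G3 : Fintype.card (G3 p) = p ^ 2 + p + 1 := by
  have h1 := Subgroup.card_eq_card_quotient_mul_card_subgroup (H3 p)
  rw [card_H3, Nat.card_units, Nat.card_eq_fintype_card (α := L3 p), card_L3,
    Nat.card_eq_fintype_card] at h1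
  have hp := p_pos p
  obtain ⟨q, rfl⟩ : ∃ q, p = q + 2 := ⟨p - 2, by omega⟩
  have h2 : (q + 2) ^ 3 - 1 = ((q + 2) ^ 2 + (q + 2) + 1) * (q + 2 - 1) := by
    have : q + 2 - 1 = q + 1 := by omega
    rw [this]
    have h3 : (q + 2) ^ 3 = ((q + 2) ^ 2 + (q + 2) + 1) * (q + 1) + 1 := by ring
    omega
  rw [h2] at h1
  exact (Nat.eq_of_mul_eq_mul_right (by omega) h1).symm

lemma card_A3 : Fintype.card (A3 p) = p ^ 2 + p + 1 := by
  rw [← card_G3 p]
  exact Fintype.card_congr (ofG p).symm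

lemma sum_out (F : (L3 p)ˣ → ℂ) (hF : ∀ x, ∀ h ∈ H3 p, F (x * h) = F x) :
    ∑ x, F x = ((p : ℂ) - 1) * ∑ g : G3 p, F g.out := by
  rw [← Finset.sum_fiberwise univ (fun x : (L3 p)ˣ => (QuotientGroup.mk x : G3 p)) F, mul_sum]
  apply sum_congr rfl
  intro g _
  have h1 : ∀ x ∈ univ.filter (fun x : (L3 p)ˣ => (QuotientGroup.mk x : G3 p) = g),
      F x = F g.out := by
    intro x hx
    rw [mem_filter] at hx
    have h2 : (QuotientGroup.mk g.out : G3 p) = QuotientGroup.mk x := by
      rw [hx.2]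
      exact QuotientGroup.out_eq' g
    have h3 := QuotientGroup.eq.mp h2
    have h4 : x = g.out * (g.out⁻¹ * x) := by group
    rw [h4]
    exact hF _ _ h3
  rw [sum_congr rfl h1, sum_const, nsmul_eq_mul]
  congr 1
  have h5 : (univ.filter (fun x : (L3 p)ˣ => (QuotientGroup.mk x : G3 p) = g)).card = p - 1 := by
    have h6 := QuotientGroup.card_preimage_mk (H3 p) {g}
    rw [card_H3] at h6
    have h7 : Nat.card (QuotientGroup.mk ⁻¹' ({g} : Set (G3 p)) : Set (L3 p)ˣ) =
        (univ.filter (fun x : (L3 p)ˣ => (QuotientGroup.mk x : G3 p) = g)).card := by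
      classical
      rw [← Fintype.card_subtype, ← Nat.card_eq_fintype_card]
      rfl
    rw [← h7, h6]
    simp
  rw [h5, Nat.cast_sub (p_pos p).le]
  simp

lemma sum_units (F : L3 p → ℂ) : ∑ x, F x = F 0 + ∑ u : (L3 p)ˣ, F u := by
  rw [← Finset.add_sum_erase univ F (mem_univ 0)]
  congr 1
  rw [Finset.sum_subtype (univ.erase (0 : L3 p)) (p := fun x => x ≠ 0) (by simp)]
  exact (Fintype.sum_equiv unitsEquivNeZero _ _ (by simp)).symm

/-- the additive character of `L3` -/
noncomputable def psiL : AddChar (L3 p) ℂ :=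
  (ZMod.stdAddChar (N := p)).compAddMonoidHom (Algebra.trace (ZMod p) (L3 p)).toAddMonoidHom

lemma psiL_apply (x : L3 p) : psiL p x = ZMod.stdAddChar (N := p) (tr3 p x) := rfl

lemma std_prim : (ZMod.stdAddChar (N := p)).IsPrimitive := ZMod.isPrimitive_stdAddChar p

lemma psiL_prim : (psiL p).IsPrimitive := by
  apply AddChar.IsPrimitive.of_ne_one
  intro h
  have hsurj : Function.Surjective (Algebra.trace (ZMod p) (L3 p)) :=
    Algebra.trace_surjective (ZMod p) (L3 p)
  have h1 : (ZMod.stdAddChar (N := p)) = 1 := by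
    ext t
    obtain ⟨x, rfl⟩ := hsurj t
    have := DFunLike.congr_fun h x
    rw [psiL_apply] at this
    exact this
  have h2 := (std_prim p) (one_ne_zero : (1 : ZMod p) ≠ 0)
  apply h2
  rw [h1]
  ext t
  simp

/-- detection of trace zero -/
lemma detect (F : L3 p → ℂ) :
    (p : ℂ) * ∑ x, (if tr3 p x = 0 then F x else 0) =
      ∑ a : ZMod p, ∑ x, F x * psiL p (algebraMap (ZMod p) (L3 p) a * x) := by
  rw [sum_comm, mul_sum]
  apply sum_congr rfl
  intro x _
  rw [← mul_sum]
  have h1 : ∑ a : ZMod p, psiL p (algebraMap (ZMod p) (L3 p) a * x) =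
      ∑ a : ZMod p, ZMod.stdAddChar (N := p) (a * tr3 p x) := by
    apply sum_congr rfl
    intro a _
    rw [psiL_apply, tr3_mul]
  rw [h1, AddChar.sum_mulShift _ (std_prim p), ZMod.card]
  split_ifs <;> simp [mul_comm]

/-- The Singer difference set. -/
noncomputable def D3 : Finset (A3 p) :=
  univ.filter (fun g => tr3 p (((ofG p).symm g).out : (L3 p)ˣ) = 0)

lemma mem_H3 (h : (L3 p)ˣ) (hh : h ∈ H3 p) :
    ∃ c : ZMod p, c ≠ 0 ∧ (h : L3 p) = algebraMap (ZMod p) (L3 p) c := by
  obtain ⟨c, rfl⟩ := hh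
  exact ⟨c, c.ne_zero, rfl⟩

/-- the count of elements of trace zero -/
lemma sum_out_tr (f : (L3 p)ˣ → ℂ) (hf : ∀ x, ∀ h ∈ H3 p, f (x * h) = f x) :
    ∑ x : (L3 p)ˣ, (if tr3 p (x : L3 p) = 0 then f x else 0) =
      ((p : ℂ) - 1) * ∑ g ∈ D3 p, f ((ofG p).symm g).out := by
  rw [sum_out p (fun x : (L3 p)ˣ => if tr3 p (x : L3 p) = 0 then f x else 0)]
  · congr 1
    unfold D3
    rw [sum_filter]
    exact (Fintype.sum_equiv (ofG p).symm _ _ (fun g => rfl)).symm
  · intro x h hh
    obtain ⟨c, hc, hc'⟩ := mem_H3 p h hh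
    have h1 : ((x * h : (L3 p)ˣ) : L3 p) = algebraMap (ZMod p) (L3 p) c * x := by
      rw [Units.val_mul, hc', mul_comm]
    simp only [h1, tr3_mul, mul_eq_zero, hc, false_or, hf x h hh]

lemma card_D3 : (D3 p).card = p + 1 := by
  have h1 := detect p (fun _ => 1)
  have h2 : ∑ a : ZMod p, ∑ x, (1 : ℂ) * psiL p (algebraMap (ZMod p) (L3 p) a * x) = (p : ℂ) ^ 3 := by
    rw [Fintype.sum_eq_single (0 : ZMod p)]
    · simp [card_L3]
    · intro a ha
      have h3 : ∑ x, (1 : ℂ) * psiL p (algebraMap (ZMod p) (L3 p) a * x) =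
          ∑ x, psiL p (x * algebraMap (ZMod p) (L3 p) a) := by
        apply sum_congr rfl
        intro x _
        rw [one_mul, mul_comm]
      rw [h3, AddChar.sum_mulShift _ (psiL_prim p)]
      have : algebraMap (ZMod p) (L3 p) a ≠ 0 := by
        simpa using ha
      simp [this]
  rw [h2, sum_units] at h1
  have h4 : tr3 p 0 = 0 := by simp [tr3]
  have h5 := sum_out_tr p (fun _ => 1) (fun _ _ _ => rfl)
  simp only [h4, if_true] at h1
  rw [h5] at h1
  simp only [sum_const, nsmul_eq_mul, mul_one] at h1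
  have hp := p_pos p
  have hpC : (p : ℂ) ≠ 0 := by
    have : p ≠ 0 := by omega
    exact_mod_cast this
  have hp1 : (p : ℂ) - 1 ≠ 0 := by
    have : (p : ℂ) ≠ 1 := by
      have : p ≠ 1 := by omega
      exact_mod_cast this
    exact sub_ne_zero.mpr this
  have h6 : (((D3 p).card : ℕ) : ℂ) = (p : ℂ) + 1 := by
    have h7 : (p : ℂ) * ((p : ℂ) - 1) * ((((D3 p).card : ℕ) : ℂ) - ((p : ℂ) + 1)) = 0 := by
      linear_combination h1
    have h8 := mul_eq_zero.mp h7
    rcases h8 with h8 | h8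
    · exact absurd h8 (mul_ne_zero hpC hp1)
    · exact sub_eq_zero.mp h8
  exact_mod_cast h6

/-- All nontrivial character sums over `D3` have absolute value `√p`. -/
theorem norm_sum_D3 (ψ : AddChar (A3 p) ℂ) (hψ : ψ ≠ 1) :
    ‖∑ g ∈ D3 p, ψ g‖ ^ 2 = p := by
  set f : (L3 p)ˣ →* ℂ :=
    { toFun := fun x => ψ (ofG p (QuotientGroup.mk x : G3 p))
      map_one' := by
        have : ofG p ((QuotientGroup.mk (1 : (L3 p)ˣ) : G3 p)) = 0 := rfl
        rw [this, AddChar.map_zero_eq_one]
      map_mul' := by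
        intro x y
        have : ofG p ((QuotientGroup.mk (x * y) : G3 p)) =
          ofG p ((QuotientGroup.mk x : G3 p)) + ofG p ((QuotientGroup.mk y : G3 p)) := rfl
        rw [this, AddChar.map_add_eq_mul] } with hf
  have hfapp : ∀ x, f x = ψ (ofG p (QuotientGroup.mk x : G3 p)) := fun _ => rfl
  set χ : MulChar (L3 p) ℂ := MulChar.ofUnitHom f.toHomUnits with hχ
  have hχf : ∀ u : (L3 p)ˣ, χ u = f u := by
    intro u
    rw [hχ, MulChar.ofUnitHom_coe]
    rfl
  have hfH : ∀ h ∈ H3 p, f h = 1 := by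
    intro h hh
    rw [hfapp]
    have : (QuotientGroup.mk h : G3 p) = 1 := (QuotientGroup.eq_one_iff h).mpr hh
    rw [this]
    exact AddChar.map_zero_eq_one ψ
  have hχ1 : χ ≠ 1 := by
    intro h
    apply hψ
    ext g
    obtain ⟨u, hu⟩ := QuotientGroup.mk_surjective ((ofG p).symm g)
    have h1 : g = ofG p (QuotientGroup.mk u : G3 p) := by rw [hu, Equiv.apply_symm_apply]
    rw [h1, ← hfapp, ← hχf, h, MulChar.one_apply_coe]
    rfl
  set Gs := gaussSum χ (psiL p) with hGs
  have hGn : Gs * star Gs = ((p ^ 3 : ℕ) : ℂ) := by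
    rw [hGs, star_gaussSum_eq, gaussSum_mul_gaussSum_eq_card hχ1 (psiL_prim p), card_L3]
  have hscal : ∀ a : ZMod p, a ≠ 0 →
      ∑ x, χ x * psiL p (algebraMap (ZMod p) (L3 p) a * x) = Gs := by
    intro a ha
    set u : (L3 p)ˣ := Units.map (algebraMap (ZMod p) (L3 p)).toMonoidHom (Units.mk0 a ha) with hu
    have hu' : (u : L3 p) = algebraMap (ZMod p) (L3 p) a := rfl
    have h1 := gaussSum_mulShift χ (psiL p) u
    have h2 : χ u = 1 := by
      rw [hχf]
      exact hfH u ⟨Units.mk0 a ha, rfl⟩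
    rw [h2, one_mul] at h1
    rw [hGs, ← h1]
    unfold gaussSum
    apply sum_congr rfl
    intro x _
    rw [AddChar.mulShift_apply, hu']
  have hdet := detect p (fun x => χ x)
  have hR : ∑ a : ZMod p, ∑ x, χ x * psiL p (algebraMap (ZMod p) (L3 p) a * x) =
      ((p : ℂ) - 1) * Gs := by
    rw [← Finset.add_sum_erase univ _ (mem_univ (0 : ZMod p))]
    have h1 : ∑ x, χ x * psiL p (algebraMap (ZMod p) (L3 p) 0 * x) = 0 := by
      have h2 : ∑ x, χ x * psiL p (algebraMap (ZMod p) (L3 p) 0 * x) = ∑ x, χ x := by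
        apply sum_congr rfl
        intro x _
        simp
      rw [h2]
      exact MulChar.sum_eq_zero_of_ne_one hχ1
    rw [h1, zero_add, sum_congr rfl (fun a ha => hscal a (ne_of_mem_erase ha)), sum_const,
      card_erase_of_mem (mem_univ _), card_univ, ZMod.card, nsmul_eq_mul,
      Nat.cast_sub (p_pos p).le]
    simp
  rw [hR, sum_units] at hdet
  have h0 : χ 0 = 0 := MulChar.map_zero χ
  have h3 := sum_out_tr p (fun x => f x) (fun x h hh => by
    show f (x * h) = f x
    rw [map_mul, hfH h hh, mul_one])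
  have h4 : ∑ u : (L3 p)ˣ, (if tr3 p (u : L3 p) = 0 then χ (u : L3 p) else 0) =
      ∑ u : (L3 p)ˣ, (if tr3 p (u : L3 p) = 0 then f u else 0) := by
    apply sum_congr rfl
    intro u _
    rw [hχf]
  have h5 : ∑ g ∈ D3 p, f ((ofG p).symm g).out = ∑ g ∈ D3 p, ψ g := by
    apply sum_congr rfl
    intro g _
    rw [hfapp]
    congr 1
    have : (QuotientGroup.mk ((ofG p).symm g).out : G3 p) = (ofG p).symm g :=
      QuotientGroup.out_eq' _
    rw [this, Equiv.apply_symm_apply]
  rw [h4, h3, h5, h0, ite_self, zero_add] at hdet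
  have hp := p_pos p
  have hpC : (p : ℂ) ≠ 0 := by
    have : p ≠ 0 := by omega
    exact_mod_cast this
  have hp1 : (p : ℂ) - 1 ≠ 0 := by
    have : (p : ℂ) ≠ 1 := by
      have : p ≠ 1 := by omega
      exact_mod_cast this
    exact sub_ne_zero.mpr this
  have h6 : (p : ℂ) * ∑ g ∈ D3 p, ψ g = Gs := by
    have h7 : ((p : ℂ) - 1) * ((p : ℂ) * ∑ g ∈ D3 p, ψ g) = ((p : ℂ) - 1) * Gs := by
      rw [← hdet]
      ring
    exact mul_left_cancel₀ hp1 h7
  have h8 : ‖Gs‖ ^ 2 = (p : ℝ) ^ 3 := by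
    have h9 : (‖Gs‖ : ℂ) ^ 2 = ((p ^ 3 : ℕ) : ℂ) := by
      rw [← hGn]
      exact (Complex.mul_conj' Gs).symm
    have h10 : (((‖Gs‖ ^ 2 : ℝ)) : ℂ) = (((p : ℝ) ^ 3 : ℝ) : ℂ) := by
      push_cast
      rw [h9]
      push_cast
      rfl
    exact_mod_cast h10
  rw [← h6, norm_mul, mul_pow, Complex.norm_natCast] at h8
  have hpR : (p : ℝ) ≠ 0 := by
    have : p ≠ 0 := by omega
    exact_mod_cast this
  have h11 : (p : ℝ) ^ 2 * (‖∑ g ∈ D3 p, ψ g‖ ^ 2) = (p : ℝ) ^ 2 * p := by
    rw [h8]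
    ring
  exact mul_left_cancel₀ (pow_ne_zero 2 hpR) h11

end Singer

end Pool.Agent.H109R2.SIC
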