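import Pool.Agent.H109R2.SIC.Select
import Pool.Agent.H109R2.SIC.Singer

/-!
# Nearly equiangular tight frames

For a prime `p` and `d ≤ p + 1`: `p² + p + 1` unit vectors in `ℂ^d` forming a tight frame, with
inner products close to `√p / d` in absolute value.
-/

set_option autoImplicit false

open Finset

namespace Pool.Agent.H109R2.SIC

variable (p : ℕ) [Fact p.Prime]

/-- The complement in `D3` of a set of `p + 1 - d` elements with small character sums. -/
lemma exists_sub (d : ℕ) (hdp : d ≤ p + 1) (L : ℝ) (hL1 : 1 ≤ L)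
    (hL : Real.log (2 * (2 * ((p : ℝ) ^ 2 + p + 1) + 1)) ≤ L) :
    ∃ E : Finset (A3 p), E.card = d ∧
      ∀ ψ : AddChar (A3 p) ℂ, ψ ≠ 1 →
        |‖∑ g ∈ E, ψ g‖ - √p| ≤ 9 * √(((p + 1 - d : ℕ) : ℝ) * L) := by
  classical
  set m := p + 1 - d with hm
  have hmp : m ≤ (D3 p).card := by rw [card_D3]; omega
  have hcA : Fintype.card (AddChar (A3 p) ℂ) = p ^ 2 + p + 1 := by
    rw [AddChar.card_eq, card_A3]
  obtain ⟨M, hMD, hMc, hM⟩ := select (D3 p)
    (univ : Finset (AddChar (A3 p) ℂ × Bool))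
    (fun i x => if i.2 = true then (i.1 x).re else (i.1 x).im)
    (by
      intro i _ x _
      have h1 : ‖i.1 x‖ = 1 := i.1.norm_apply x
      show |if i.2 = true then (i.1 x).re else (i.1 x).im| ≤ 1
      split_ifs
      · exact (Complex.abs_re_le_norm _).trans h1.le
      · exact (Complex.abs_im_le_norm _).trans h1.le) m hmp L
    (by
      rw [card_univ, Fintype.card_prod, hcA, Fintype.card_bool]
      push_cast
      refine le_trans (le_of_eq ?_) hL
      congr 1
      ring)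
  refine ⟨D3 p \ M, ?_, ?_⟩
  · rw [card_sdiff_of_subset hMD, card_D3, hMc]
    omega
  · intro ψ hψ
    have hpR : (0 : ℝ) < p := by exact_mod_cast (by have := p_pos p; omega : 0 < p)
    set SD := ∑ g ∈ D3 p, ψ g with hSD
    set SM := ∑ g ∈ M, ψ g with hSM
    have hnD : ‖SD‖ = √p := by
      rw [← norm_sum_D3 p ψ hψ, Real.sqrt_sq (norm_nonneg _)]
    have hsub : ∑ g ∈ D3 p \ M, ψ g = SD - SM := by
      rw [hSD, ← sum_sdiff hMD]
      ring
    set r : ℝ := (m : ℝ) / ((D3 p).card : ℝ) with hr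
    have hre := hM (ψ, true) (mem_univ _)
    have him := hM (ψ, false) (mem_univ _)
    simp only [if_true, Bool.false_eq_true, if_false] at hre him
    rw [← Complex.re_sum, ← Complex.re_sum, ← hSD, ← hSM] at hre
    rw [← Complex.im_sum, ← Complex.im_sum, ← hSD, ← hSM] at him
    have h1 : ‖SM - (r : ℂ) * SD‖ ≤ 8 * √(m * L) := by
      refine (Complex.norm_le_abs_re_add_abs_im _).trans ?_
      have e1 : (SM - (r : ℂ) * SD).re = SM.re - r * SD.re := by simp
      have e2 : (SM - (r : ℂ) * SD).im = SM.im - r * SD.im := by simp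
      rw [e1, e2]
      linarith
    have hr0 : 0 ≤ r := by positivity
    have h2 : r * √p ≤ √(m * L) := by
      rw [hr, card_D3]
      apply Real.le_sqrt_of_sq_le
      rw [mul_pow, Real.sq_sqrt hpR.le, div_pow, div_mul_eq_mul_div, div_le_iff₀ (by positivity)]
      push_cast
      have h3 : (m : ℝ) ≤ p + 1 := by
        have : m ≤ p + 1 := by omega
        exact_mod_cast this
      have hm0 : (0 : ℝ) ≤ m := Nat.cast_nonneg _
      have h4 : (m : ℝ) ^ 2 * p ≤ m * (p + 1) * (p + 1) := by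
        have : (m : ℝ) ^ 2 ≤ m * (p + 1) := by nlinarith
        nlinarith
      nlinarith [mul_nonneg hm0 (sub_nonneg.mpr hL1),
        mul_nonneg (mul_nonneg hm0 (sub_nonneg.mpr hL1)) (sq_nonneg ((p : ℝ) + 1))]
    have h5 : ‖SM‖ ≤ 9 * √(m * L) := by
      have h6 : SM = (SM - (r : ℂ) * SD) + (r : ℂ) * SD := by ring
      calc ‖SM‖ = ‖(SM - (r : ℂ) * SD) + (r : ℂ) * SD‖ := by rw [← h6]
        _ ≤ ‖SM - (r : ℂ) * SD‖ + ‖(r : ℂ) * SD‖ := norm_add_le _ _
        _ ≤ 8 * √(m * L) + √(m * L) := by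
            apply add_le_add h1
            rw [norm_mul, hnD, Complex.norm_real, Real.norm_of_nonneg hr0]
            exact h2
        _ = 9 * √(m * L) := by ring
    rw [hsub]
    have h7 := abs_norm_sub_norm_le (SD - SM) SD
    have h8 : ‖SD - SM - SD‖ = ‖SM‖ := by
      rw [← norm_neg]
      congr 1
      ring
    rw [h8, hnD] at h7
    exact h7.trans h5

theorem frame (d : ℕ) (hd : 1 ≤ d) (hdp : d ≤ p + 1) (L : ℝ) (hL1 : 1 ≤ L)
    (hL : Real.log (2 * (2 * ((p : ℝ) ^ 2 + p + 1) + 1)) ≤ L) :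
    ∃ v : Fin (p ^ 2 + p + 1) → EuclideanSpace ℂ (Fin d), (∀ i, ‖v i‖ = 1) ∧
      (∀ i j, i ≠ j →
        |(d : ℝ) * ‖inner ℂ (v i) (v j)‖ - √p| ≤ 9 * √(((p + 1 - d : ℕ) : ℝ) * L)) ∧
      ∀ x : EuclideanSpace ℂ (Fin d),
        ∑ i, ‖inner ℂ (v i) x‖ ^ 2 = (((p ^ 2 + p + 1 : ℕ) : ℝ) / d) * ‖x‖ ^ 2 := by
  classical
  obtain ⟨E, hEc, hE⟩ := exists_sub p d hdp L hL1 hL
  have hcA : Fintype.card (AddChar (A3 p) ℂ) = p ^ 2 + p + 1 := by
    rw [AddChar.card_eq, card_A3]
  let e : Fin (p ^ 2 + p + 1) ≃ AddChar (A3 p) ℂ :=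
    (Fintype.equivFinOfCardEq hcA).symm
  let f : Fin d ≃ E := (E.equivFinOfCardEq hEc).symm
  have hd0 : (0 : ℝ) < d := by exact_mod_cast hd
  have hsd : (√d : ℂ) ≠ 0 := by
    have : √(d : ℝ) ≠ 0 := (Real.sqrt_pos.mpr hd0).ne'
    exact_mod_cast this
  have hsd2 : ((√d : ℝ) : ℂ) * ((√d : ℝ) : ℂ) = (d : ℂ) := by
    rw [← Complex.ofReal_mul, Real.mul_self_sqrt hd0.le]
    simp
  have hdC : (d : ℂ) ≠ 0 := by
    have : (d : ℝ) ≠ 0 := hd0.ne'
    exact_mod_cast this
  let v : Fin (p ^ 2 + p + 1) → EuclideanSpace ℂ (Fin d) := fun i =>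
    WithLp.toLp 2 (fun k => e i (f k : A3 p) / ((√d : ℝ) : ℂ))
  have hv : ∀ i k, v i k = e i (f k : A3 p) / ((√d : ℝ) : ℂ) := fun _ _ => rfl
  refine ⟨v, ?_, ?_, ?_⟩
  · intro i
    rw [EuclideanSpace.norm_eq]
    have h1 : ∀ k, ‖v i k‖ ^ 2 = 1 / d := by
      intro k
      rw [hv, norm_div, (e i).norm_apply, Complex.norm_real, Real.norm_of_nonneg (Real.sqrt_nonneg _),
        div_pow, one_pow, Real.sq_sqrt hd0.le]
    rw [sum_congr rfl (fun k _ => h1 k), sum_const, card_univ, Fintype.card_fin, nsmul_eq_mul,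
      mul_one_div_cancel hd0.ne', Real.sqrt_one]
  · intro i j hij
    have h1 : inner ℂ (v i) (v j) = (1 / (d : ℂ)) * ∑ g ∈ E, (e j / e i) g := by
      rw [PiLp.inner_apply, mul_sum, ← Finset.sum_coe_sort E]
      apply Fintype.sum_equiv f
      intro k
      rw [RCLike.inner_apply, hv, hv, AddChar.div_apply', map_div₀, Complex.conj_ofReal,
        ← AddChar.inv_apply_eq_conj]
      rw [div_mul_div_comm, hsd2]
      field_simp
    have hne : e j / e i ≠ 1 := by
      intro h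
      exact hij (e.injective (div_eq_one.mp h)).symm
    have h2 := hE (e j / e i) hne
    rw [h1, norm_mul, norm_div, norm_one, Complex.norm_natCast]
    have h3 : (d : ℝ) * (1 / d * ‖∑ g ∈ E, (e j / e i) g‖) = ‖∑ g ∈ E, (e j / e i) g‖ := by
      field_simp
    rw [h3]
    exact h2
  · intro x
    have h1 : ∀ i, ((‖inner ℂ (v i) x‖ ^ 2 : ℝ) : ℂ) =
        (1 / (d : ℂ)) * ∑ k, ∑ l, (x k * (starRingEnd ℂ) (x l)) *
          e i ((f l : A3 p) - (f k : A3 p)) := by
      intro i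
      have h2 : inner ℂ (v i) x = ∑ k, x k * ((e i (f k : A3 p))⁻¹ / ((√d : ℝ) : ℂ)) := by
        rw [PiLp.inner_apply]
        apply sum_congr rfl
        intro k _
        rw [RCLike.inner_apply, hv, map_div₀, Complex.conj_ofReal, ← AddChar.inv_apply_eq_conj]
      have h3 : (starRingEnd ℂ) (inner ℂ (v i) x) =
          ∑ l, (starRingEnd ℂ) (x l) * (e i (f l : A3 p) / ((√d : ℝ) : ℂ)) := by
        rw [h2, map_sum]
        apply sum_congr rfl
        intro l _
        rw [map_mul, map_div₀, Complex.conj_ofReal, map_inv₀, ← AddChar.inv_apply_eq_conj, inv_inv]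
      rw [Complex.ofReal_pow, ← Complex.mul_conj', h3, h2, sum_mul_sum, mul_sum]
      apply sum_congr rfl
      intro k _
      rw [mul_sum]
      apply sum_congr rfl
      intro l _
      have h4 : e i ((f l : A3 p) - (f k : A3 p)) =
          e i (f l : A3 p) * (e i (f k : A3 p))⁻¹ := by
        rw [AddChar.map_sub_eq_div, div_eq_mul_inv]
      rw [h4]
      calc _ = (x k * (starRingEnd ℂ) (x l)) * (e i (f l : A3 p) *
            (e i (f k : A3 p))⁻¹) * (1 / (((√d : ℝ) : ℂ) * ((√d : ℝ) : ℂ))) := by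
            field_simp
        _ = _ := by rw [hsd2]; ring
    have h5 : ((∑ i, ‖inner ℂ (v i) x‖ ^ 2 : ℝ) : ℂ) =
        (((((p ^ 2 + p + 1 : ℕ) : ℝ) / d) * ‖x‖ ^ 2 : ℝ) : ℂ) := by
      rw [Complex.ofReal_sum, sum_congr rfl (fun i _ => h1 i), ← mul_sum, sum_comm]
      have h6 : ∀ k ∈ (univ : Finset (Fin d)), ∑ i, ∑ l, (x k * (starRingEnd ℂ) (x l)) *
          e i ((f l : A3 p) - (f k : A3 p)) =
          ((p ^ 2 + p + 1 : ℕ) : ℂ) * ((‖x k‖ ^ 2 : ℝ) : ℂ) := by
        intro k _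
        rw [sum_comm]
        rw [Fintype.sum_eq_single k]
        · simp only [sub_self, AddChar.map_zero_eq_one, mul_one, sum_const, card_univ,
            Fintype.card_fin, nsmul_eq_mul]
          rw [Complex.mul_conj', Complex.ofReal_pow]
        · intro l hl
          rw [← mul_sum]
          have h7 : ∑ i, e i ((f l : A3 p) - (f k : A3 p)) =
              ∑ ψ : AddChar (A3 p) ℂ, ψ ((f l : A3 p) - (f k : A3 p)) :=
            Fintype.sum_equiv e _ _ (fun _ => rfl)
          rw [h7, AddChar.sum_apply_eq_ite, if_neg, mul_zero]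
          intro h8
          apply hl
          have h9 : (f l : A3 p) = f k := sub_eq_zero.mp h8
          exact f.injective (Subtype.ext h9)
      rw [sum_congr rfl h6, ← mul_sum, EuclideanSpace.norm_sq_eq]
      push_cast
      field_simp
    exact_mod_cast h5

end Pool.Agent.H109R2.SIC
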