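import Pool.Agent.H109R2.SIC.Frame
import Pool.Agent.H442R2.EHI.PntErr

/-!
# Nearly equiangular tight frames of `≥ d²` vectors in every large dimension
-/

set_option autoImplicit false

open Finset Filter

namespace Pool.Agent.H109R2.SIC

lemma theta_eq_of_no_prime (d h : ℕ) (hno : ∀ q : ℕ, q.Prime → d < q → d + h < q) :
    Chebyshev.theta ((d + h : ℕ) : ℝ) = Chebyshev.theta (d : ℝ) := by
  unfold Chebyshev.theta
  rw [Nat.floor_natCast, Nat.floor_natCast]
  congr 1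
  ext q
  simp only [mem_filter, mem_Ioc]
  constructor
  · rintro ⟨⟨h1, h2⟩, h3⟩
    refine ⟨⟨h1, ?_⟩, h3⟩
    by_contra hcon
    have := hno q h3 (by omega)
    omega
  · rintro ⟨⟨h1, h2⟩, h3⟩
    exact ⟨⟨h1, by omega⟩, h3⟩

lemma ev_nat (P : ℝ → Prop) (h : ∀ᶠ x : ℝ in atTop, P x) :
    ∃ n₀ : ℕ, ∀ n : ℕ, n₀ ≤ n → P n := by
  have h1 := (tendsto_natCast_atTop_atTop (R := ℝ)).eventually h
  rw [eventually_atTop] at h1
  exact h1

lemma ev_pow (B : ℕ) : ∀ᶠ x : ℝ in atTop, Real.log x ^ B ≤ x := by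
  have h := (Real.isLittleO_pow_log_id_atTop (n := B)).bound (show (0 : ℝ) < 1 by norm_num)
  filter_upwards [h, eventually_ge_atTop (1 : ℝ)] with X hX hX1
  rw [Real.norm_of_nonneg (pow_nonneg (Real.log_nonneg hX1) _), id,
    Real.norm_of_nonneg (by linarith)] at hX
  linarith

lemma prime_short (B : ℕ) : ∃ d₀ : ℕ, ∀ d : ℕ, d₀ ≤ d →
    ∃ q : ℕ, q.Prime ∧ d < q ∧ (q : ℝ) ≤ d + d / Real.log d ^ B := by
  obtain ⟨C, hC, hθ⟩ := Pool.Agent.H442R2.EHI.PntErrAux.thetaU (B + 1)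
  obtain ⟨n₁, h₁⟩ := ev_nat _ (Real.tendsto_log_atTop.eventually_gt_atTop (3 * C + 2))
  obtain ⟨n₂, h₂⟩ := ev_nat _ (ev_pow (B + 1))
  refine ⟨max (max n₁ n₂) 2, fun d hd => ?_⟩
  have hd1 : n₁ ≤ d := le_trans (le_trans (le_max_left _ _) (le_max_left _ _)) hd
  have hd2 : n₂ ≤ d := le_trans (le_trans (le_max_right _ _) (le_max_left _ _)) hd
  have hd3 : 2 ≤ d := le_trans (le_max_right _ _) hd
  have hL := h₁ d hd1
  have hP := h₂ d hd2
  set l := Real.log d with hl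
  have hl1 : 1 ≤ l := by linarith
  have hl0 : 0 < l := by linarith
  have hdR : (2 : ℝ) ≤ d := by exact_mod_cast hd3
  have hd0 : (0 : ℝ) < d := by linarith
  set h := ⌊(d : ℝ) / l ^ B⌋₊ with hh
  have hh1 : (h : ℝ) ≤ d / l ^ B := Nat.floor_le (by positivity)
  have hh2 : (d : ℝ) / l ^ B < h + 1 := Nat.lt_floor_add_one _
  have hlB : 1 ≤ l ^ B := one_le_pow₀ hl1
  have hlB1 : 0 < l ^ (B + 1) := by positivity
  by_contra hcon
  push Not at hcon
  have hno : ∀ q : ℕ, q.Prime → d < q → d + h < q := by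
    intro q hq hdq
    have h3 := hcon q hq hdq
    by_contra h4
    have h5 : (q : ℝ) ≤ d + h := by
      have : q ≤ d + h := by omega
      exact_mod_cast this
    linarith
  have h3 := theta_eq_of_no_prime d h hno
  have h4 := hθ (d + h) (by omega)
  have h5 := hθ d hd3
  have h6 : (d : ℝ) / l ^ B ≤ d := div_le_self hd0.le hlB
  have h7 : ((d + h : ℕ) : ℝ) ≤ 2 * d := by
    push_cast
    linarith
  have h8 : l ≤ Real.log ((d + h : ℕ) : ℝ) := by
    rw [hl]
    apply Real.log_le_log hd0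
    push_cast
    have : (0 : ℝ) ≤ h := Nat.cast_nonneg _
    linarith
  have h9 : ((d + h : ℕ) : ℝ) / Real.log ((d + h : ℕ) : ℝ) ^ (B + 1) ≤ 2 * d / l ^ (B + 1) := by
    apply div_le_div₀ (by positivity) h7 hlB1
    exact pow_le_pow_left₀ hl0.le h8 _
  have h10 : (h : ℝ) ≤ 3 * C * (d / l ^ (B + 1)) := by
    have e1 := (abs_le.mp (h4.trans (mul_le_mul_of_nonneg_left h9 hC.le))).1
    have e2 := (abs_le.mp h5).2
    rw [h3] at e1
    push_cast at e1
    have e3 : C * (2 * d / l ^ (B + 1)) = 2 * C * (d / l ^ (B + 1)) := by ring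
    rw [e3] at e1
    linarith
  have h11 : (d : ℝ) / l ^ B < 1 + 3 * C * (d / l ^ (B + 1)) := by linarith
  have h12 : (d : ℝ) / l ^ B = l * (d / l ^ (B + 1)) := by
    rw [pow_succ]
    field_simp
  have h13 : 1 ≤ d / l ^ (B + 1) := by
    rw [le_div_iff₀ hlB1]
    linarith
  rw [h12] at h11
  nlinarith

/-- Main theorem. -/
theorem main (A : ℕ) : ∃ d₀ : ℕ, ∀ d : ℕ, d₀ ≤ d →
    ∃ (N : ℕ) (v : Fin N → EuclideanSpace ℂ (Fin d)),
      d ^ 2 ≤ N ∧ (N : ℝ) ≤ (1 + 1 / Real.log d ^ A) * (d : ℝ) ^ 2 ∧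
      (∀ i, ‖v i‖ = 1) ∧
      (∀ i j, i ≠ j →
        |((d : ℝ) + 1) * ‖inner ℂ (v i) (v j)‖ ^ 2 - 1| ≤ 1 / Real.log d ^ A) ∧
      ∀ x : EuclideanSpace ℂ (Fin d),
        ∑ i, ‖inner ℂ (v i) x‖ ^ 2 = ((N : ℝ) / d) * ‖x‖ ^ 2 := by
  obtain ⟨n₀, h₀⟩ := prime_short (2 * A + 3)
  obtain ⟨n₁, h₁⟩ := ev_nat _ (Real.tendsto_log_atTop.eventually_ge_atTop 1199)
  obtain ⟨n₂, h₂⟩ := ev_nat _ (ev_pow (2 * A + 3))
  refine ⟨max (max n₀ n₁) (max n₂ 30), fun d hd => ?_⟩
  have hd0 : n₀ ≤ d := le_trans (le_trans (le_max_left _ _) (le_max_left _ _)) hd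
  have hd1 : n₁ ≤ d := le_trans (le_trans (le_max_right _ _) (le_max_left _ _)) hd
  have hd2 : n₂ ≤ d := le_trans (le_trans (le_max_left _ _) (le_max_right _ _)) hd
  have hd3 : 30 ≤ d := le_trans (le_trans (le_max_right _ _) (le_max_right _ _)) hd
  obtain ⟨p, hp, hdp, hple⟩ := h₀ d hd0
  have hL := h₁ d hd1
  have hP := h₂ d hd2
  have : Fact p.Prime := ⟨hp⟩
  set l := Real.log d with hl
  have hl0 : 0 < l := by linarith
  have hl1 : 1 ≤ l := by linarith
  have hdR : (30 : ℝ) ≤ d := by exact_mod_cast hd3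
  have hdpos : (0 : ℝ) < d := by linarith
  have hdpR : (d : ℝ) < p := by exact_mod_cast hdp
  have hB : l ^ (2 * A + 3) = l ^ (A + 1) * l ^ (A + 1) * l := by ring
  have hA1 : 1 ≤ l ^ (A + 1) := one_le_pow₀ hl1
  set a := l ^ (A + 1) with ha
  have hApos : 0 < a := by linarith
  have hA' : l ^ A * l = a := by rw [ha, pow_succ]
  have hlA : 0 < l ^ A := by positivity
  have hBpos : 0 < l ^ (2 * A + 3) := by positivity
  have hB1 : a ≤ l ^ (2 * A + 3) := by
    rw [hB]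
    have : a * 1 ≤ a * (a * l) := mul_le_mul_of_nonneg_left (by nlinarith) hApos.le
    nlinarith
  have had : a ≤ d := hB1.trans hP
  -- the size of `p`
  have hq1 : (d : ℝ) / l ^ (2 * A + 3) ≤ d / a := by
    apply div_le_div_of_nonneg_left hdpos.le hApos hB1
  have hq2 : (d : ℝ) / a ≤ d := div_le_self hdpos.le hA1
  have hp2 : (p : ℝ) ≤ 2 * d := by linarith
  have hpR : (0 : ℝ) < p := by linarith
  obtain ⟨v, hv1, hv2, hv3⟩ := frame p d (by omega) (by omega) (3 * l) (by linarith) (by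
    have h1 : 2 * (2 * ((p : ℝ) ^ 2 + p + 1) + 1) ≤ (d : ℝ) ^ 3 := by
      have e1 : (p : ℝ) ^ 2 ≤ (2 * d) ^ 2 := pow_le_pow_left₀ hpR.le hp2 2
      have e2 : 30 * (d : ℝ) ^ 2 ≤ d ^ 3 := by
        have : (d : ℝ) ^ 3 = d * d ^ 2 := by ring
        rw [this]
        exact mul_le_mul_of_nonneg_right hdR (by positivity)
      nlinarith
    calc Real.log (2 * (2 * ((p : ℝ) ^ 2 + p + 1) + 1)) ≤ Real.log ((d : ℝ) ^ 3) :=
          Real.log_le_log (by positivity) h1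
      _ = 3 * l := by rw [Real.log_pow]; norm_num [hl])
  -- the error term
  set m : ℕ := p + 1 - d with hm
  have hmR : (m : ℝ) = p + 1 - d := by
    rw [hm, Nat.cast_sub (by omega)]
    push_cast
    ring
  have hm0 : (0 : ℝ) ≤ m := Nat.cast_nonneg _
  have hm1 : (m : ℝ) ≤ 2 * d / l ^ (2 * A + 3) := by
    have h1 : 1 ≤ (d : ℝ) / l ^ (2 * A + 3) := by
      rw [le_div_iff₀ hBpos]
      linarith
    have h2 : 2 * (d : ℝ) / l ^ (2 * A + 3) = d / l ^ (2 * A + 3) + d / l ^ (2 * A + 3) := by ring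
    rw [h2, hmR]
    linarith
  set E : ℝ := 9 * √((m : ℝ) * (3 * l)) with hE
  have hE0 : 0 ≤ E := by positivity
  have hE1 : E ≤ 23 * √d / a := by
    have h1 : (m : ℝ) * (3 * l) ≤ 6 * d / a ^ 2 := by
      calc (m : ℝ) * (3 * l) ≤ (2 * d / l ^ (2 * A + 3)) * (3 * l) :=
            mul_le_mul_of_nonneg_right hm1 (by positivity)
        _ = 6 * d / a ^ 2 := by
            rw [hB]
            field_simp
            ring
    have h2 : √((m : ℝ) * (3 * l)) ≤ √(6 * d / a ^ 2) := Real.sqrt_le_sqrt h1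
    have h3 : √(6 * d / a ^ 2) = √6 * √d / a := by
      rw [Real.sqrt_div (by positivity), Real.sqrt_mul (by norm_num), Real.sqrt_sq hApos.le]
    have h4 : √(6 : ℝ) ≤ 2.5 := by
      rw [Real.sqrt_le_left (by norm_num)]
      norm_num
    calc E ≤ 9 * (√6 * √d / a) := by
          rw [hE, ← h3]
          linarith
      _ ≤ 9 * (2.5 * √d / a) := by
          gcongr
      _ ≤ 23 * √d / a := by
          have : 9 * (2.5 * √(d : ℝ) / a) = 22.5 * √d / a := by ring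
          rw [this]
          gcongr
          norm_num
  have hsd : 0 ≤ √(d : ℝ) := Real.sqrt_nonneg _
  have hsd2 : √(d : ℝ) * √d = d := Real.mul_self_sqrt hdpos.le
  have hE2 : E ≤ 23 * √d := hE1.trans (div_le_self (by positivity) hA1)
  have hsp : √(p : ℝ) ≤ 3 / 2 * √d := by
    rw [Real.sqrt_le_left (by positivity), mul_pow, Real.sq_sqrt hdpos.le]
    linarith
  have hinv : 1199 / a ≤ 1 / l ^ A := by
    rw [div_le_div_iff₀ hApos hlA, ← hA']
    nlinarith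
  refine ⟨p ^ 2 + p + 1, v, ?_, ?_, hv1, ?_, ?_⟩
  · have : d ^ 2 ≤ p ^ 2 := Nat.pow_le_pow_left hdp.le 2
    omega
  · -- size of `N`
    push_cast
    have h1 : (p : ℝ) ≤ d + d / a := by linarith
    have h2 : (p : ℝ) ^ 2 ≤ (d + d / a) ^ 2 := pow_le_pow_left₀ hpR.le h1 2
    have h3 : ((d : ℝ) + d / a) ^ 2 = d ^ 2 * (1 + (2 + 1 / a) / a) := by
      field_simp
      ring
    have h4 : 1 / a ≤ 1 := (div_le_one hApos).mpr hA1
    have h5 : (2 + 1 / a) / a ≤ 3 / a := by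
      gcongr
      linarith
    have h6 : (p : ℝ) + 1 ≤ 3 * d := by linarith
    have h7 : 3 * (d : ℝ) ≤ d ^ 2 * (3 / a) := by
      rw [mul_div_assoc', le_div_iff₀ hApos]
      nlinarith
    have h8 : (p : ℝ) ^ 2 + p + 1 ≤ d ^ 2 * (1 + 6 / a) := by
      have e1 : (d : ℝ) ^ 2 * (1 + (2 + 1 / a) / a) ≤ d ^ 2 * (1 + 3 / a) := by gcongr
      have e2 : (d : ℝ) ^ 2 * (1 + 6 / a) = d ^ 2 * (1 + 3 / a) + d ^ 2 * (3 / a) := by ring
      linarith
    have h9 : 6 / a ≤ 1 / l ^ A := by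
      refine le_trans ?_ hinv
      gcongr
      norm_num
    calc (p : ℝ) ^ 2 + p + 1 ≤ d ^ 2 * (1 + 6 / a) := h8
      _ ≤ d ^ 2 * (1 + 1 / l ^ A) := by gcongr
      _ = (1 + 1 / l ^ A) * d ^ 2 := by ring
  · intro i j hij
    set x : ℝ := (d : ℝ) * ‖inner ℂ (v i) (v j)‖ with hx
    have hx1 : |x - √p| ≤ E := hv2 i j hij
    have hx0 : 0 ≤ x := by positivity
    have h1 : ((d : ℝ) + 1) * ‖inner ℂ (v i) (v j)‖ ^ 2 - 1 =
        (d + 1) / d ^ 2 * (x ^ 2 - p) + ((d + 1) * p - d ^ 2) / d ^ 2 := by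
      rw [hx]
      field_simp
      ring
    have h2 : |x ^ 2 - p| ≤ 598 * d / a := by
      have e1 : x ^ 2 - p = (x - √p) * (x + √p) := by
        have := Real.mul_self_sqrt hpR.le
        nlinarith
      have e2 : x + √p ≤ 26 * √d := by
        have := (abs_le.mp hx1).2
        linarith
      have e3 : 0 ≤ x + √p := by positivity
      rw [e1, abs_mul, abs_of_nonneg e3]
      calc |x - √p| * (x + √p) ≤ (23 * √d / a) * (26 * √d) :=
            mul_le_mul (hx1.trans hE1) e2 e3 (by positivity)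
        _ = 598 * (√d * √d) / a := by ring
        _ = 598 * d / a := by rw [hsd2]
    have h3 : |((d + 1) * p - d ^ 2) / (d : ℝ) ^ 2| ≤ 3 / a := by
      have e0 : 0 ≤ ((d : ℝ) + 1) * p - d ^ 2 := by nlinarith
      rw [abs_of_nonneg (by positivity), div_le_div_iff₀ (by positivity) hApos]
      have e1 : (p : ℝ) * a ≤ d * a + d := by
        have : (p : ℝ) ≤ d + d / a := by linarith
        calc (p : ℝ) * a ≤ (d + d / a) * a := mul_le_mul_of_nonneg_right this hApos.le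
          _ = d * a + d := by field_simp
      nlinarith
    rw [h1]
    calc |(d + 1) / d ^ 2 * (x ^ 2 - p) + ((d + 1) * p - d ^ 2) / (d : ℝ) ^ 2|
        ≤ |(d + 1) / (d : ℝ) ^ 2 * (x ^ 2 - p)| + |((d + 1) * p - d ^ 2) / (d : ℝ) ^ 2| :=
          abs_add_le _ _
      _ ≤ 2 / d * (598 * d / a) + 3 / a := by
          apply add_le_add _ h3
          rw [abs_mul]
          apply mul_le_mul _ h2 (abs_nonneg _) (by positivity)
          rw [abs_of_nonneg (by positivity), div_le_div_iff₀ (by positivity) hdpos]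
          nlinarith
      _ = 1199 / a := by
          field_simp
          ring
      _ ≤ 1 / l ^ A := hinv
  · exact hv3

end Pool.Agent.H109R2.SIC
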