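import Mathlib

/-!
# Small subsets with small sums

A set of prescribed size on which finitely many functions bounded by `1` have sums close to the
expected ones (exponential moments of a random subset).
-/

set_option autoImplicit false

open Finset

namespace Pool.Agent.H109R2.SIC

variable {α ι : Type*} [DecidableEq α]

/-- The weight of the subset `S` of `X`. -/
noncomputable def wt (X : Finset α) (p : ℝ) (S : Finset α) : ℝ :=
  (∏ _x ∈ S, p) * ∏ _x ∈ X \ S, (1 - p)

/-- The deviation of the sum of `h` over `S`. -/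
noncomputable def dev (X : Finset α) (p : ℝ) (h : α → ℝ) (S : Finset α) : ℝ :=
  ∑ x ∈ S, h x - p * ∑ x ∈ X, h x

lemma wt_nonneg (X : Finset α) {p : ℝ} (hp0 : 0 ≤ p) (hp1 : p ≤ 1) (S : Finset α) :
    0 ≤ wt X p S :=
  mul_nonneg (prod_nonneg fun _ _ => hp0) (prod_nonneg fun _ _ => by linarith)

lemma sum_wt (X : Finset α) (p : ℝ) : ∑ S ∈ X.powerset, wt X p S = 1 := by
  unfold wt
  rw [← Finset.prod_add]
  simp

lemma moment (X : Finset α) {p : ℝ} (hp0 : 0 ≤ p) (hp1 : p ≤ 1) (h : α → ℝ)
    (hh : ∀ x ∈ X, |h x| ≤ 1) (t : ℝ) (ht : |t| ≤ 1) :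
    ∑ S ∈ X.powerset, wt X p S * Real.exp (t * dev X p h S) ≤
      Real.exp (X.card * p * t ^ 2) := by
  have h1 : ∀ S ∈ X.powerset, wt X p S * Real.exp (t * dev X p h S) =
      (∏ x ∈ X, Real.exp (-(t * p * h x))) *
        ((∏ x ∈ S, (p * Real.exp (t * h x))) * ∏ _x ∈ X \ S, (1 - p)) := by
    intro S _
    unfold wt dev
    rw [prod_mul_distrib, ← Real.exp_sum, ← Real.exp_sum]
    have h2 : t * (∑ x ∈ S, h x - p * ∑ x ∈ X, h x) =
        ∑ x ∈ X, (-(t * p * h x)) + ∑ x ∈ S, t * h x := by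
      rw [← mul_sum, sum_neg_distrib, ← mul_sum]
      ring
    rw [h2, Real.exp_add]
    ring
  rw [sum_congr rfl h1, ← mul_sum, ← Finset.prod_add, ← prod_mul_distrib]
  have h3 : Real.exp (X.card * p * t ^ 2) = ∏ _x ∈ X, Real.exp (p * t ^ 2) := by
    rw [prod_const, ← Real.exp_nat_mul]
    ring_nf
  rw [h3]
  apply prod_le_prod
  · intro x _
    exact mul_nonneg (Real.exp_nonneg _)
      (add_nonneg (mul_nonneg hp0 (Real.exp_nonneg _)) (by linarith))
  · intro x hx
    have hu : |t * h x| ≤ 1 := by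
      rw [abs_mul]
      exact mul_le_one₀ ht (abs_nonneg _) (hh x hx)
    have h4 := (abs_le.mp (Real.abs_exp_sub_one_sub_id_le hu)).2
    have h5 : (t * h x) ^ 2 ≤ t ^ 2 := by
      rw [mul_pow]
      have : h x ^ 2 ≤ 1 := by
        have := abs_le.mp (hh x hx)
        nlinarith
      nlinarith [sq_nonneg t]
    have h6 : p * Real.exp (t * h x) + (1 - p) ≤ Real.exp (p * (t * h x) + p * t ^ 2) := by
      have h7 := Real.add_one_le_exp (p * (t * h x) + p * t ^ 2)
      have h8 : p * Real.exp (t * h x) ≤ p * (1 + t * h x + t ^ 2) :=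
        mul_le_mul_of_nonneg_left (by linarith) hp0
      linarith
    calc Real.exp (-(t * p * h x)) * (p * Real.exp (t * h x) + (1 - p))
        ≤ Real.exp (-(t * p * h x)) * Real.exp (p * (t * h x) + p * t ^ 2) :=
          mul_le_mul_of_nonneg_left h6 (Real.exp_nonneg _)
      _ = Real.exp (p * t ^ 2) := by
          rw [← Real.exp_add]
          ring_nf

/-- A subset with all deviations small. -/
lemma exists_dev (X : Finset α) (T : Finset ι) (g : ι → α → ℝ)
    (hg : ∀ i ∈ T, ∀ x ∈ X, |g i x| ≤ 1) {p : ℝ} (hp0 : 0 ≤ p) (hp1 : p ≤ 1) (t : ℝ)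
    (ht0 : 0 < t) (ht : t ≤ 1) :
    ∃ S ⊆ X, ∀ i ∈ T, t * |dev X p (g i) S| ≤
      Real.log (2 * T.card) + X.card * p * t ^ 2 := by
  classical
  rcases T.eq_empty_or_nonempty with hT | hT
  · exact ⟨∅, by simp, by simp [hT]⟩
  have hTc : 0 < T.card := hT.card_pos
  set Φ : Finset α → ℝ := fun S => ∑ i ∈ T, (Real.exp (t * dev X p (g i) S) +
    Real.exp ((-t) * dev X p (g i) S)) with hΦ
  have h1 : ∑ S ∈ X.powerset, wt X p S * Φ S ≤ (2 * T.card) * Real.exp (X.card * p * t ^ 2) := by
    have : ∑ S ∈ X.powerset, wt X p S * Φ S =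
        ∑ i ∈ T, (∑ S ∈ X.powerset, wt X p S * Real.exp (t * dev X p (g i) S) +
          ∑ S ∈ X.powerset, wt X p S * Real.exp ((-t) * dev X p (g i) S)) := by
      simp only [hΦ, mul_sum]
      rw [sum_comm]
      apply sum_congr rfl
      intro i _
      rw [← sum_add_distrib]
      apply sum_congr rfl
      intro S _
      ring
    rw [this]
    calc _ ≤ ∑ i ∈ T, (Real.exp (X.card * p * t ^ 2) + Real.exp (X.card * p * t ^ 2)) := by
          apply sum_le_sum
          intro i hi
          apply add_le_add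
          · exact moment X hp0 hp1 (g i) (hg i hi) t (by rw [abs_of_pos ht0]; exact ht)
          · have := moment X hp0 hp1 (g i) (hg i hi) (-t)
              (by rw [abs_neg, abs_of_pos ht0]; exact ht)
            rwa [neg_sq] at this
      _ = _ := by rw [sum_const, nsmul_eq_mul]; ring
  obtain ⟨S, hS, hle⟩ : ∃ S ∈ X.powerset, Φ S ≤ (2 * T.card) * Real.exp (X.card * p * t ^ 2) := by
    by_contra hcon
    push Not at hcon
    have h2 : ∑ S ∈ X.powerset, wt X p S * ((2 * T.card) * Real.exp (X.card * p * t ^ 2)) <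
        ∑ S ∈ X.powerset, wt X p S * Φ S := by
      have hex : ∃ S ∈ X.powerset, 0 < wt X p S := by
        by_contra hno
        push Not at hno
        have := sum_nonpos hno
        rw [sum_wt] at this
        linarith
      obtain ⟨S0, hS0, hpos⟩ := hex
      apply sum_lt_sum
      · intro S hS
        exact mul_le_mul_of_nonneg_left (hcon S hS).le (wt_nonneg X hp0 hp1 S)
      · exact ⟨S0, hS0, mul_lt_mul_of_pos_left (hcon S0 hS0) hpos⟩
    rw [← sum_mul, sum_wt, one_mul] at h2
    linarith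
  refine ⟨S, mem_powerset.mp hS, fun i hi => ?_⟩
  have h3 : Real.exp (t * dev X p (g i) S) + Real.exp ((-t) * dev X p (g i) S) ≤ Φ S :=
    single_le_sum (f := fun i => Real.exp (t * dev X p (g i) S) +
      Real.exp ((-t) * dev X p (g i) S)) (fun _ _ => by positivity) hi
  have h4 : Real.exp (t * |dev X p (g i) S|) ≤ (2 * T.card) * Real.exp (X.card * p * t ^ 2) := by
    refine le_trans ?_ (h3.trans hle)
    rcases abs_cases (dev X p (g i) S) with ⟨h, _⟩ | ⟨h, _⟩
    · rw [h]
      linarith [Real.exp_nonneg ((-t) * dev X p (g i) S)]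
    · rw [h]
      have : t * -dev X p (g i) S = (-t) * dev X p (g i) S := by ring
      rw [this]
      linarith [Real.exp_nonneg (t * dev X p (g i) S)]
  have h5 := Real.log_le_log (Real.exp_pos _) h4
  rw [Real.log_exp, Real.log_mul (by positivity) (Real.exp_pos _).ne', Real.log_exp] at h5
  exact h5

/-- A subset of prescribed size `m` with all deviations at most `4 √(m L)`. -/
theorem select (X : Finset α) (T : Finset ι) (g : ι → α → ℝ)
    (hg : ∀ i ∈ T, ∀ x ∈ X, |g i x| ≤ 1) (m : ℕ) (hm : m ≤ X.card) (L : ℝ)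
    (hL : Real.log (2 * (T.card + 1)) ≤ L) :
    ∃ M ⊆ X, M.card = m ∧ ∀ i ∈ T,
      |∑ x ∈ M, g i x - (m / X.card : ℝ) * ∑ x ∈ X, g i x| ≤ 4 * √(m * L) := by
  classical
  rcases Nat.eq_zero_or_pos m with hm0 | hm0
  · subst hm0
    exact ⟨∅, by simp, by simp, by simp⟩
  have hXc : 0 < X.card := lt_of_lt_of_le hm0 hm
  have hXR : (0 : ℝ) < X.card := by exact_mod_cast hXc
  have hmR : (0 : ℝ) < m := by exact_mod_cast hm0
  have hmX : (m : ℝ) ≤ X.card := by exact_mod_cast hm
  have hL0 : 0 < L := by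
    refine lt_of_lt_of_le (Real.log_pos ?_) hL
    have : (0 : ℝ) ≤ T.card := Nat.cast_nonneg _
    linarith
  have bnd : ∀ M ⊆ X, ∀ i ∈ T, |∑ x ∈ M, g i x| ≤ M.card := by
    intro M hM i hi
    calc |∑ x ∈ M, g i x| ≤ ∑ x ∈ M, |g i x| := abs_sum_le_sum_abs _ _
      _ ≤ ∑ _x ∈ M, (1 : ℝ) := sum_le_sum fun x hx => hg i hi x (hM hx)
      _ = M.card := by simp
  rcases le_or_gt (m : ℝ) L with hcase | hcase
  · obtain ⟨M, hM, hMc⟩ := exists_subset_card_eq hm
    refine ⟨M, hM, hMc, fun i hi => ?_⟩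
    have h1 := bnd M hM i hi
    have h2 := bnd X subset_rfl i hi
    rw [hMc] at h1
    have h3 : |(m / X.card : ℝ) * ∑ x ∈ X, g i x| ≤ m := by
      rw [abs_mul, abs_of_nonneg (by positivity : (0 : ℝ) ≤ m / X.card), div_mul_eq_mul_div,
        div_le_iff₀ hXR]
      exact mul_le_mul_of_nonneg_left h2 hmR.le
    have h4 : (m : ℝ) ≤ √(m * L) := Real.le_sqrt_of_sq_le (by nlinarith)
    calc |∑ x ∈ M, g i x - (m / X.card : ℝ) * ∑ x ∈ X, g i x|
        ≤ |∑ x ∈ M, g i x| + |(m / X.card : ℝ) * ∑ x ∈ X, g i x| := abs_sub _ _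
      _ ≤ m + m := add_le_add h1 h3
      _ ≤ 4 * √(m * L) := by linarith [Real.sqrt_nonneg (m * L)]
  · set p : ℝ := m / X.card with hp
    have hp0 : 0 ≤ p := by positivity
    have hp1 : p ≤ 1 := (div_le_one hXR).mpr hmX
    set t : ℝ := √(L / m) with ht
    have ht0 : 0 < t := Real.sqrt_pos.mpr (by positivity)
    have ht2 : t ^ 2 = L / m := Real.sq_sqrt (by positivity)
    have ht1 : t ≤ 1 := by
      rw [ht]
      apply Real.sqrt_le_one.mpr
      rw [div_le_one hmR]
      exact hcase.le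
    set T' : Finset (Option ι) := insertNone T with hT'
    set g' : Option ι → α → ℝ := fun o x => o.elim 1 (fun i => g i x) with hg'
    obtain ⟨S, hSX, hS⟩ := exists_dev X T' g' (by
      intro o ho x hx
      cases o with
      | none => simp [hg']
      | some i =>
        simp only [hg', Option.elim]
        exact hg i (by simpa [hT'] using ho) x hx) hp0 hp1 t ht0 ht1
    have hT'c : (T'.card : ℝ) = T.card + 1 := by simp [hT', card_insertNone]
    have hXp : (X.card : ℝ) * p * t ^ 2 = L := by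
      rw [hp, ht2]
      field_simp
    have htL : t * √(m * L) = L := by
      rw [ht, ← Real.sqrt_mul (by positivity)]
      have : L / m * (m * L) = L ^ 2 := by field_simp
      rw [this, Real.sqrt_sq hL0.le]
    have hdev : ∀ o ∈ T', |dev X p (g' o) S| ≤ 2 * √(m * L) := by
      intro o ho
      have h1 := hS o ho
      rw [hT'c, hXp] at h1
      have h2 : t * |dev X p (g' o) S| ≤ t * (2 * √(m * L)) := by
        have : t * (2 * √(m * L)) = 2 * L := by linarith
        linarith
      exact le_of_mul_le_mul_left h2 ht0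
    have hcard : |(S.card : ℝ) - m| ≤ 2 * √(m * L) := by
      have h1 := hdev none (by simp [hT'])
      have h2 : dev X p (g' none) S = S.card - m := by
        simp only [dev, hg', Option.elim, sum_const, nsmul_eq_mul, mul_one, hp]
        field_simp
      rwa [h2] at h1
    rcases le_total m S.card with hc | hc
    · obtain ⟨M, hMS, hMc⟩ := exists_subset_card_eq hc
      refine ⟨M, hMS.trans hSX, hMc, fun i hi => ?_⟩
      have h1 := hdev (some i) (by simpa [hT'] using hi)
      have h2 : ∑ x ∈ S, g i x = ∑ x ∈ S \ M, g i x + ∑ x ∈ M, g i x :=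
        (sum_sdiff hMS).symm
      have h3 := bnd (S \ M) ((sdiff_subset).trans hSX) i hi
      have h4 : (((S \ M).card : ℕ) : ℝ) = S.card - m := by
        rw [card_sdiff_of_subset hMS, Nat.cast_sub (card_le_card hMS), hMc]
      rw [h4] at h3
      have h5 : (S.card : ℝ) - m ≤ 2 * √(m * L) := (le_abs_self _).trans hcard
      have h6 : dev X p (g' (some i)) S = ∑ x ∈ S, g i x - p * ∑ x ∈ X, g i x := rfl
      rw [h6, h2] at h1
      rw [abs_le] at *
      constructor <;> linarith [h1.1, h1.2, h3.1, h3.2]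
    · obtain ⟨M, hSM, hMX, hMc⟩ := exists_subsuperset_card_eq hSX hc hm
      refine ⟨M, hMX, hMc, fun i hi => ?_⟩
      have h1 := hdev (some i) (by simpa [hT'] using hi)
      have h2 : ∑ x ∈ M, g i x = ∑ x ∈ M \ S, g i x + ∑ x ∈ S, g i x :=
        (sum_sdiff hSM).symm
      have h3 := bnd (M \ S) ((sdiff_subset).trans hMX) i hi
      have h4 : (((M \ S).card : ℕ) : ℝ) = m - S.card := by
        rw [card_sdiff_of_subset hSM, Nat.cast_sub (card_le_card hSM), hMc]
      rw [h4] at h3
      have h5 : (m : ℝ) - S.card ≤ 2 * √(m * L) := by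
        rw [abs_sub_comm] at hcard
        exact (le_abs_self _).trans hcard
      have h6 : dev X p (g' (some i)) S = ∑ x ∈ S, g i x - p * ∑ x ∈ X, g i x := rfl
      rw [h6] at h1
      rw [h2]
      rw [abs_le] at *
      constructor <;> linarith [h1.1, h1.2, h3.1, h3.2]

end Pool.Agent.H109R2.SIC
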